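import Pool.Agent.Helper23.DGL.AE
import Pool.Agent.Helper23.DGL.BD
import Pool.Agent.Helper29.DGL.CH
import Pool.Agent.Helper29.DGL.TH
import Pool.Agent.Helper48.DGL.CL
import Pool.Agent.Helper48.DGL.SQ
import Pool.Agent.Helper59.DGL.A
import Pool.Agent.Helper59.DGL.EA
import Pool.Agent.Helper59.DGL.EP
import Pool.Agent.Helper59.DGL.FI
import Pool.Agent.Helper67.DGL.UR
import Pool.Agent.Helper69.DGL.LI
import Pool.Agent.Helper69.DGL.TA
import Pool.Agent.Helper69.DGL.FC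
import Pool.Agent.Helper70.DGL.B

/-!
# De Giorgi's conjecture: monotone solutions are planar at most places of every subspace of
codimension three

Let `u` be a bounded solution of `Δu + u - u³ = 0` on `ℝⁿ` (any `n`) with `∂ₑu > 0`, and let `F` be
a linear subspace of dimension at least `n - 3` which does not contain `e`.  Along every translate
of `F` the solution `u` looks like the planar solution `tanh ((⟨a, x⟩ - c) / √2)` at all places but
a set of density zero, uniformly in `u`.  Consequently `u` is planar if it is recurrent along such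
subspaces with positive density.
-/

set_option autoImplicit false

open Module

namespace Pool.Agent.Results.MP_800410_an.MostlyPlanar

/-- Euclidean space -/
abbrev E (n : ℕ) : Type := EuclideanSpace ℝ (Fin n)

/-- bounded classical solutions of `Δu + u - u³ = 0` on `ℝⁿ` with `∂ₑu > 0` everywhere -/
def IsSolution {n : ℕ} (e : E n) (u : E n → ℝ) : Prop :=
  ContDiff ℝ 2 u ∧ (∃ M : ℝ, ∀ x, |u x| ≤ M) ∧
    (∀ x, Laplacian.laplacian u x + u x - u x ^ 3 = 0) ∧ ∀ x, 0 < fderiv ℝ u x e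

/-- on the ball of radius `r` about `v`, the function `u` is `δ`-close to a planar transition -/
def NearPlanar {n : ℕ} (r δ : ℝ) (u : E n → ℝ) (v : E n) : Prop :=
  ∃ (a : E n) (c : ℝ), ‖a‖ = 1 ∧
    ∀ x, ‖x - v‖ ≤ r → |u x - Real.tanh ((inner ℝ a x - c) / √2)| ≤ δ

/-- `S` is a 1-separated set of points of `x₀ + F` at distance at most `R` from `x₀` -/
def Spread {n : ℕ} (F : Submodule ℝ (E n)) (x₀ : E n) (R : ℝ) (S : Finset (E n)) : Prop :=
  (∀ v ∈ S, ∀ w ∈ S, v ≠ w → 1 ≤ ‖v - w‖) ∧ ∀ v ∈ S, v - x₀ ∈ F ∧ ‖v - x₀‖ ≤ R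

/-- `F` has codimension at most three and does not contain `e` -/
def Transversal {n : ℕ} (e : E n) (F : Submodule ℝ (E n)) : Prop :=
  n ≤ finrank ℝ F + 3 ∧ e ∉ F

/-- The set of the `v` in `F` such that `u`, seen from `v`, is `δ`-close to `u` on the ball of
radius `r` about the origin, up to a rotation, has positive upper Banach density. -/
def Recurs {n : ℕ} (F : Submodule ℝ (E n)) (r δ : ℝ) (u : E n → ℝ) : Prop :=
  ∃ c : ℝ, 0 < c ∧ ∀ R₀ : ℝ, ∃ R : ℝ, R₀ ≤ R ∧ ∃ x₀ ∈ F, ∃ S : Finset (E n),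
    Spread F x₀ R S ∧ c * R ^ finrank ℝ F ≤ S.card ∧
    ∀ v ∈ S, ∃ g : E n ≃ₗᵢ[ℝ] E n, ∀ x, ‖x‖ ≤ r → |u (g x + v) - u x| ≤ δ

/-- `u` is a planar transition -/
def Planar {n : ℕ} (u : E n → ℝ) : Prop :=
  ∃ (a : E n) (c : ℝ), ‖a‖ = 1 ∧ ∀ x, u x = Real.tanh ((inner ℝ a x - c) / √2)

/-- the level sets of `u` are hyperplanes -/
def HyperplaneLevels {n : ℕ} (u : E n → ℝ) : Prop :=
  ∀ y ∈ Set.range u, ∃ s : AffineSubspace ℝ (E n),
    finrank ℝ s.direction + 1 = n ∧ (s : Set (E n)) = u ⁻¹' {y}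

open Pool.Agent.Helper70.DGL in
theorem count {n : ℕ} (e : E n) (F : Submodule ℝ (E n)) (hF : Transversal e F) (r δ ε : ℝ)
    (hδ : 0 < δ) (hε : 0 < ε) : ∃ R₀ : ℝ, ∀ R : ℝ, R₀ ≤ R → ∀ u : E n → ℝ, IsSolution e u →
      ∀ (x₀ : E n) (S : Finset (E n)), Spread F x₀ R S →
        (∀ v ∈ S, ¬ NearPlanar r δ u v) → (S.card : ℝ) ≤ ε * R ^ finrank ℝ F := by
  have hTH := Pool.Agent.Helper29.DGL.s_TH
  have hCH := Pool.Agent.Helper29.DGL.s_CH
  have hFC := Pool.Agent.Helper69.DGL.s_FC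
  have hSQ := Pool.Agent.Helper48.DGL.s_SQ
  have hCL := Pool.Agent.Helper48.DGL.s_CL
  have hEA := Pool.Agent.Helper59.DGL.s_EA
  have hEP := Pool.Agent.Helper59.DGL.s_EP
  have hA := Pool.Agent.Helper59.DGL.s_A hTH hCH hFC hCL
  have hAE := Pool.Agent.Helper23.DGL.s_AE hA hCH hEA
  have hB := s_B hA hAE hEP hTH hFC hCL hCH
  have hBD := Pool.Agent.Helper23.DGL.s_BD hSQ
  obtain ⟨R₀, hR₀⟩ := Pool.Agent.Helper59.DGL.s_FI hB Pool.Agent.Helper69.DGL.s_TA hBD
    Pool.Agent.Helper67.DGL.s_UR n F hF.1 e hF.2 r δ ε hδ hε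
  exact ⟨R₀, fun R hR u hu x₀ S hS hN =>
    hR₀ R hR u ⟨hu.1, hu.2.1, hu.2.2.1⟩ hu.2.2.2 x₀ S hS.1 hS.2 hN⟩

theorem recurrent {n : ℕ} (e : E n) (u : E n → ℝ) (hu : IsSolution e u)
    (hrec : ∀ r δ : ℝ, 0 < δ → ∃ F : Submodule ℝ (E n), Transversal e F ∧ Recurs F r δ u) :
    Planar u := by
  apply Pool.Agent.Helper69.DGL.s_LI (Fin n) u e (hu.1.differentiable two_ne_zero) hu.2.2.2
  intro r δ hδ
  obtain ⟨F, hF, c, hc, hR⟩ := hrec r (δ / 2) (by positivity)
  obtain ⟨R₀, hR₀⟩ := count e F hF r (δ / 2) (c / 2) (by positivity) (by positivity)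
  obtain ⟨R, hRR, x₀, hx₀, S, hS, hcard, hg⟩ := hR (max R₀ 1)
  have hR1 : 1 ≤ R := (le_max_right _ _).trans hRR
  have hR0 : 0 < R := by linarith
  have hex : ∃ v ∈ S, NearPlanar r (δ / 2) u v := by
    by_contra hcon
    push Not at hcon
    have h1 := hR₀ R ((le_max_left _ _).trans hRR) u hu x₀ S hS hcon
    have h2 : 0 < R ^ finrank ℝ F := by positivity
    nlinarith
  obtain ⟨v, hv, a, c', ha, hac⟩ := hex
  obtain ⟨g, hgx⟩ := hg v hv
  refine ⟨g.symm a, c' - inner ℝ a v, by rw [LinearIsometryEquiv.norm_map, ha], fun x hx => ?_⟩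
  rw [sub_zero] at hx
  have h1 := hgx x hx
  have h2 := hac (g x + v) (by rwa [add_sub_cancel_right, LinearIsometryEquiv.norm_map])
  have h3 : (inner ℝ (g.symm a) x : ℝ) = inner ℝ a (g x) := by
    rw [← LinearIsometryEquiv.inner_map_map g (g.symm a) x, LinearIsometryEquiv.apply_symm_apply]
  have h4 : (inner ℝ (g.symm a) x - (c' - inner ℝ a v) : ℝ) = inner ℝ a (g x + v) - c' := by
    rw [h3, inner_add_right]
    ring
  rw [h4]
  have h5 := abs_le.1 h1
  have h6 := abs_le.1 h2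
  rw [abs_le]
  constructor <;> linarith [h5.1, h5.2, h6.1, h6.2]

theorem levels {n : ℕ} {u : E n → ℝ} (hu : Planar u) : HyperplaneLevels u := by
  obtain ⟨a, c, ha, hu⟩ := hu
  have ha0 : a ≠ 0 := by
    rintro rfl
    rw [norm_zero] at ha
    exact zero_ne_one ha
  rintro y ⟨x₁, rfl⟩
  refine ⟨AffineSubspace.mk' x₁ (ℝ ∙ a)ᗮ, ?_, ?_⟩
  · rw [AffineSubspace.direction_mk']
    have h1 := Submodule.finrank_add_finrank_orthogonal (ℝ ∙ a : Submodule ℝ _)
    rw [finrank_span_singleton ha0, finrank_euclideanSpace, Fintype.card_fin] at h1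
    omega
  · ext x
    rw [SetLike.mem_coe, AffineSubspace.mem_mk', vsub_eq_sub,
      Submodule.mem_orthogonal_singleton_iff_inner_right, Set.mem_preimage, Set.mem_singleton_iff,
      hu, hu, Real.tanh_injective.eq_iff, inner_sub_right, sub_eq_zero]
    constructor
    · intro h
      rw [h]
    · intro h
      have h2 : √(2 : ℝ) ≠ 0 := by positivity
      field_simp at h
      linarith

theorem result (n : ℕ) (e : E n) :
    (∀ F : Submodule ℝ (E n), Transversal e F → ∀ r δ ε : ℝ, 0 < δ → 0 < ε →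
      ∃ R₀ : ℝ, ∀ R : ℝ, R₀ ≤ R → ∀ u : E n → ℝ, IsSolution e u →
        ∀ (x₀ : E n) (S : Finset (E n)), Spread F x₀ R S →
          (∀ v ∈ S, ¬ NearPlanar r δ u v) → (S.card : ℝ) ≤ ε * R ^ finrank ℝ F) ∧
    ∀ u : E n → ℝ, IsSolution e u →
      (∀ r δ : ℝ, 0 < δ → ∃ F : Submodule ℝ (E n), Transversal e F ∧ Recurs F r δ u) →
      Planar u ∧ HyperplaneLevels u := by
  refine ⟨fun F hF r δ ε hδ hε => count e F hF r δ ε hδ hε, fun u hu hrec => ?_⟩
  have h := recurrent e u hu hrec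
  exact ⟨h, levels h⟩

end Pool.Agent.Results.MP_800410_an.MostlyPlanar
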